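import Pool.Agent.W133.DQ.StB

set_option autoImplicit false

open scoped ContDiff
open Set Filter Topology
open Pool.Agent.W133.DQ

namespace Pool.Agent.W15.DQ

theorem nb1_iff (u : P2 → ℝ) (b : ℝ) : NB 1 u b ↔ ∀ p, ‖fderiv ℝ u p‖ ≤ b := by
  unfold NB
  simp only [norm_iteratedFDeriv_one]

/-- translate of a dilation -/
theorem nb1_dil (A : ℝ) (hA : 0 < A) (c : ℝ) (u : P2 → ℝ) (hu : ContDiff ℝ ∞ u) (b : ℝ)
    (h : NB 1 u b) : NB 1 (fun q : P2 => dil A u (q.1 + c, q.2)) b := by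
  rw [nb1_iff] at h ⊢
  intro p
  have hd : HasFDerivAt u (fderiv ℝ u ((p.1 + c) / A, p.2 / A)) ((p.1 + c) / A, p.2 / A) :=
    ((hu.differentiable (by simp)) _).hasFDerivAt
  have hl : HasFDerivAt (fun q : P2 => (((q.1 + c) / A, q.2 / A) : P2))
      ((A⁻¹ : ℝ) • ContinuousLinearMap.id ℝ P2) p := by
    have h1 : HasFDerivAt (fun q : P2 => (A⁻¹ : ℝ) • (q + ((c, 0) : P2)))
        ((A⁻¹ : ℝ) • ContinuousLinearMap.id ℝ P2) p :=
      ((hasFDerivAt_id p).add_const ((c, 0) : P2)).const_smul (A⁻¹ : ℝ)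
    refine h1.congr_of_eventuallyEq (Eventually.of_forall fun q => ?_)
    ext <;> simp [div_eq_inv_mul, mul_add]
  have hw : HasFDerivAt (fun q : P2 => dil A u (q.1 + c, q.2))
      (A • ((fderiv ℝ u ((p.1 + c) / A, p.2 / A)).comp
        ((A⁻¹ : ℝ) • ContinuousLinearMap.id ℝ P2))) p := by
    have := (hd.comp p hl).const_mul A
    exact this
  rw [hw.fderiv]
  have : (A • ((fderiv ℝ u ((p.1 + c) / A, p.2 / A)).comp
        ((A⁻¹ : ℝ) • ContinuousLinearMap.id ℝ P2))) = fderiv ℝ u ((p.1 + c) / A, p.2 / A) := by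
    rw [ContinuousLinearMap.comp_smul, ContinuousLinearMap.comp_id, smul_smul,
      mul_inv_cancel₀ hA.ne', one_smul]
  rw [this]
  exact h _

theorem cd_dil (A : ℝ) (c : ℝ) (u : P2 → ℝ) (hu : ContDiff ℝ ∞ u) :
    ContDiff ℝ ∞ (fun q : P2 => dil A u (q.1 + c, q.2)) := by
  unfold dil
  refine contDiff_const.mul (hu.comp ?_)
  exact ((contDiff_fst.add contDiff_const).div_const A).prodMk (contDiff_snd.div_const A)

theorem rlip (h0 : S_CH0) : S_RLIP := by
  intro A hA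
  obtain ⟨δ, hδ, H⟩ := h0 (2 * A + 5)
  have hA' : (0 : ℝ) < A := by exact_mod_cast hA
  refine ⟨δ, 2 * ((2 * A + 5 : ℕ) : ℝ) * A, hδ, by positivity, ?_⟩
  intro u v hu hv hu1 hv1 d hd p
  have key := (H (fun i q => dil A u (q.1 + ((i : ℝ) - A - 2), q.2))
    (fun i q => dil A v (q.1 + ((i : ℝ) - A - 2), q.2))
    (fun i => cd_dil A _ u hu) (fun i => cd_dil A _ v hv)).2.2.2
    (fun i _ => nb1_dil A hA' _ u hu δ hu1) (fun i _ => nb1_dil A hA' _ v hv δ hv1) (A * d)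
    (fun i _ q => by
      unfold dil
      rw [← mul_sub, abs_mul, abs_of_pos hA']
      exact mul_le_mul_of_nonneg_left (hd _) hA'.le) (Int.fract p.1, p.2)
  unfold SR rollf
  calc _ ≤ _ := key
    _ = _ := by ring

end Pool.Agent.W15.DQ
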